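import Pool.Agent.N210.SV.Main

/-!
# Equidistribution of Galois orbits of special points in products of Shimura varieties:
the case of independent tori

`S = ∏ S_j` is a product of (connected components, defined over a number field `F`, of) arbitrary Shimura
varieties of adjoint groups (or of groups whose centre acts trivially, as for modular curves of level
one), `m_j` the invariant probability measure of `S_j`.  A special point `x = (x_j)` enters through the data of
the theory of complex multiplication, the structure `CMPoint` of `Pool/Agent/N210/SV/Core.lean`: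

* `G = Gal(L/ℚ)`, `Gam = Gal(L/F)`, `N = Gal(L/M)` for finite Galois extensions `M ⊆ L` of `ℚ`,
  `F ⊆ M`, such that `M` splits the tori of the `x_j` and all conjugates of the `x_j` over `F` are
  rational over `L`;
* `O j ⊆ S_j` is the orbit of `x_j` under `Gam`, `rho j` the action on it;
* `X j` is the cocharacter lattice of the torus `T_j` of `x_j` in the adjoint group, `mu j` the cocharacter of `x_j`, and for a cocharacter `ν` the map `r j ν : N → A j` is
  `σ ↦ Nm_{M/ℚ} ν(a)`, `a` an idele of `M` with Artin symbol `σ`, in the commutative group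
  `A j = T_j(ℚ)\T_j(𝔸_f)/K_j`.  It is additive in `ν`, and `r j ν (g σ g⁻¹) = r j (g⁻¹ ν) σ`;
* reciprocity law of Shimura: if `r j (mu j) σ = 1` then `σ` fixes `x_j`.

The tori are `Independent` (with exponent `m`) if for every `j` some element of the group ring `ℤ[G]` acts
on `μ_j` as multiplication by `m` and kills all other `μ_k`.  As the cocharacters `g μ` generate the
rational cocharacters of the Mumford-Tate torus, such an `m > 0` exists if and only if the Mumford-Tate
torus of `x` (modulo centre) is the product of the Mumford-Tate tori of the `x_j`.  For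
elliptic curves this means that the CM fields are pairwise different.

0. If for all `j ≠ k` some element of `G` fixes `μ_j` and acts as `-1` on `X k` (`DisjointFields`), the
   tori are independent with exponent `2^(n-1)`, `n` the number of factors.  As complex conjugation is
   `-1` on the cocharacters modulo centre, this holds if, for all `j ≠ k`, the Galois closure of the CM
   field of `x_k` is not contained in the compositum of its maximal totally real subfield and the Galois
   closure of the CM field of `x_j`.
1. The Galois orbit of `x` contains the product of the orbits of the `x_j` under the group generated by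
   the `m`-th powers of `N`, and the same around every conjugate of `x`.  For `|φ_j| ≤ 1` the mean of
   `∏ φ_j(y_j)` over the Galois orbit differs from `∏ ∫ φ_j` by at most `∑ e_j`, where `e_j` bounds the
   error in one variable, on average over the cosets of the group of `m`-th powers.
2. Hence the Galois orbits of a sequence of special points with independent tori are equidistributed in
   the product if the orbits of the coordinates are equidistributed on average over cosets.
3. If the exponent `m` is prime to the order of the group `r j (mu j) N` for all `j`, it is enough that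
   the full orbits of (the conjugates of) the coordinates under `N = Gal(L/M)` are equidistributed in
   the factors: the assertion of the problem for the factors implies the assertion for the product.
-/

set_option autoImplicit false

namespace Pool.Agent.Results.MP_9177b7_ag.IndependentTori

open MeasureTheory Filter Topology Pool.Agent.N210.EQ Pool.Agent.N210.SV

section Definitions

variable {ι : Type} {Y : ι → Type}

/-- for all `j ≠ k` some element of `G` fixes `μ_j` and acts as `-1` on the cocharacters of the `k`-th
torus -/
def DisjointFields (s : CMPoint ι Y) : Prop :=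
  ∀ j k, j ≠ k → ∃ g : s.G, g • s.mu j = s.mu j ∧ ∀ ν : s.X k, g • ν = -ν

/-- around every conjugate `γ x` the Galois orbit of `x` contains the product of the orbits of the
coordinates under the `m`-th powers -/
def OrbitContainsProducts (s : CMPoint ι Y) (m : ℕ) : Prop :=
  ∀ γ : s.Gam, Set.univ.pi (fun j => Set.range fun u : s.pow m =>
    s.pt j (s.actHom j (u : s.N) (s.at' j γ))) ⊆ s.orbit

/-- the mean of a product of functions bounded by one over the Galois orbit differs from the product of
the integrals by at most the sum of the errors in one variable -/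
def Effective [Fintype ι] [∀ j, MeasurableSpace (Y j)] (m : ∀ j, Measure (Y j))
    (s : CMPoint ι Y) (e : ℕ) : Prop :=
  ∀ (φ : ∀ j, Y j → ℝ) (δ : ι → ℝ), (∀ j y, |φ j y| ≤ 1) →
    (∀ j γ, s.err (s.pow e) j (fun z => φ j (s.pt j z) - ∫ y, φ j y ∂(m j)) (s.at' j γ) ≤ δ j) →
    |s.mean (fun y => ∏ j, φ j (y j)) - ∏ j, ∫ y, φ j y ∂(m j)| ≤ ∑ j, δ j

/-- the orbits of all conjugates of the coordinates under `N = Gal(L/M)` are equidistributed in the
factors -/
def OneVariableFull [∀ j, TopologicalSpace (Y j)] [∀ j, MeasurableSpace (Y j)]
    (m : ∀ j, Measure (Y j)) (s : ℕ → CMPoint ι Y) : Prop :=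
  ∀ j (φ : Y j → ℝ), Continuous φ → HasCompactSupport φ → ∀ ε > 0, ∀ᶠ i in atTop,
    ∀ γ : (s i).Gam, |avg (s i).N (fun n => φ ((s i).pt j ((s i).actHom j n ((s i).at' j γ)))) -
      ∫ y, φ y ∂(m j)| ≤ ε

/-- the exponent is prime to the orders of the images of `N` under the reciprocity maps -/
def PrimeToOrbits (s : CMPoint ι Y) (e : ℕ) : Prop :=
  ∀ j, (Nat.card (s.image j)).Coprime e

/-- the Galois orbits of the special points are equidistributed in the product -/
def Equidistributed [Fintype ι] [∀ j, TopologicalSpace (Y j)] [∀ j, MeasurableSpace (Y j)]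
    (m : ∀ j, Measure (Y j)) (s : ℕ → CMPoint ι Y) : Prop :=
  ∀ Φ : (∀ j, Y j) → ℝ, Continuous Φ → HasCompactSupport Φ →
    Tendsto (fun i => (s i).mean Φ) atTop (𝓝 (∫ y, Φ y ∂(Measure.pi m)))

end Definitions

theorem independent {ι : Type} [Fintype ι] {Y : ι → Type} (s : CMPoint ι Y)
    (h : DisjointFields s) : s.Independent (2 ^ (Fintype.card ι - 1)) := by
  classical
  intro j
  suffices key : ∀ S : Finset ι, j ∉ S → ∃ e : s.G → ℤ,
      ∑ g, e g • (g • s.mu j) = (2 ^ S.card) • s.mu j ∧
        ∀ k ∈ S, ∀ ν : s.X k, ∑ g, e g • (g • ν) = 0 by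
    obtain ⟨e, h1, h2⟩ := key (Finset.univ.erase j) (Finset.notMem_erase j _)
    rw [Finset.card_erase_of_mem (Finset.mem_univ j), Finset.card_univ] at h1
    exact ⟨e, h1, fun k hk => h2 k (Finset.mem_erase.2 ⟨hk, Finset.mem_univ k⟩) _⟩
  intro S
  induction S using Finset.induction_on with
  | empty =>
    intro _
    refine ⟨fun g => if g = 1 then 1 else 0, ?_, fun k hk => absurd hk (Finset.notMem_empty k)⟩
    simp
  | @insert a S ha ih =>
    intro hj
    rw [Finset.mem_insert, not_or] at hj
    obtain ⟨e, h1, h2⟩ := ih hj.2
    obtain ⟨g0, hg1, hg2⟩ := h j a hj.1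
    have h3 : ∀ (k : ι) (ν : s.X k), ∑ g, (e g + e (g * g0⁻¹)) • (g • ν) =
        ∑ g, e g • (g • (ν + g0 • ν)) := by
      intro k ν
      simp only [add_smul, smul_add, Finset.sum_add_distrib]
      congr 1
      rw [← Equiv.sum_comp (Equiv.mulRight g0) (fun g => e (g * g0⁻¹) • (g • ν))]
      refine Finset.sum_congr rfl fun g _ => ?_
      rw [Equiv.coe_mulRight, mul_inv_cancel_right, mul_smul]
    refine ⟨fun g => e g + e (g * g0⁻¹), ?_, fun k hk ν => ?_⟩
    · rw [h3, hg1]
      simp only [smul_add, Finset.sum_add_distrib]
      rw [h1, Finset.card_insert_of_notMem ha, pow_succ, mul_smul, two_smul, smul_add]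
    · rw [h3]
      rcases Finset.mem_insert.1 hk with rfl | hk
      · rw [hg2 ν, add_neg_cancel]
        simp
      · exact h2 k hk _

theorem contains {ι : Type} [Fintype ι] {Y : ι → Type} (s : CMPoint ι Y) {m : ℕ}
    (h : s.Independent m) : OrbitContainsProducts s m := by
  intro γ y hy
  rw [Set.mem_univ_pi] at hy
  choose u hu using hy
  -- conjugate to the base point
  obtain ⟨σ, hσ⟩ := s.realise h (fun j => s.cj (γ : s.G)⁻¹ (u j)) (fun j => s.cj_mem_pow _ (u j).2)
  refine ⟨γ * s.toGam σ, ?_⟩
  funext j
  rw [← hu j]
  unfold CMPoint.point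
  beta_reduce
  congr 1
  have h1 := s.at_eq j (hσ j)
  have h2 : s.toGam (u j : s.N) * γ = γ * s.toGam (s.cj (γ : s.G)⁻¹ (u j)) := by
    apply Subtype.ext
    simp [CMPoint.toGam, CMPoint.cj, mul_assoc]
  rw [← s.at_mul, h2]
  unfold CMPoint.at' at h1 ⊢
  rw [map_mul, map_mul, Equiv.Perm.mul_apply, Equiv.Perm.mul_apply, h1]

theorem result (ι : Type) [Fintype ι] (Y : ι → Type) [∀ j, TopologicalSpace (Y j)]
    [∀ j, T2Space (Y j)] [∀ j, LocallyCompactSpace (Y j)] [∀ j, SecondCountableTopology (Y j)]
    [∀ j, MeasurableSpace (Y j)] [∀ j, BorelSpace (Y j)]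
    (m : ∀ j, Measure (Y j)) [∀ j, IsProbabilityMeasure (m j)] :
    (∀ s : CMPoint ι Y, DisjointFields s → s.Independent (2 ^ (Fintype.card ι - 1))) ∧
    (∀ (s : CMPoint ι Y) (e : ℕ), s.Independent e →
      OrbitContainsProducts s e ∧ Effective m s e) ∧
    (∀ (s : ℕ → CMPoint ι Y) (e : ℕ → ℕ), (∀ i, (s i).Independent (e i)) →
      OneVariable m s e → Equidistributed m s) ∧
    (∀ (s : ℕ → CMPoint ι Y) (e : ℕ → ℕ), (∀ i, (s i).Independent (e i)) →
      (∀ i, PrimeToOrbits (s i) (e i)) → OneVariableFull m s → Equidistributed m s) := by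
  classical
  refine ⟨fun s h => independent s h, fun s e hs => ⟨contains s hs, fun φ δ hφ he => ?_⟩,
    fun s e hs h1 Φ hc hsupp => joint m s e hs h1 Φ hc hsupp,
    fun s e hs hp h1 Φ hc hsupp => joint m s e hs ?_ Φ hc hsupp⟩
  · have hc : ∀ j, |∫ y, φ j y ∂(m j)| ≤ 1 := by
      intro j
      have := norm_integral_le_of_norm_le_const (μ := m j) (f := φ j) (C := 1)
        (Eventually.of_forall fun y => hφ j y)
      simpa using this
    have he0 : ∀ j, 0 ≤ δ j := by
      intro j
      refine le_trans ?_ (he j 1)
      have : (0 : ℝ) = avg s.N (fun _ => 0) := (avg_const 0).symm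
      rw [this]
      exact avg_mono fun g => abs_nonneg _
    have h := s.product_bound hs (fun j z => φ j (s.pt j z))
      (fun j => ∫ y, φ j y ∂(m j)) (fun _ => 1) δ (fun _ => le_rfl) (fun j z => hφ j _) hc he0
      (fun j γ => he j γ) Finset.univ
    rw [CMPoint.mean_eq]
    rw [Finset.prod_const_one, one_mul] at h
    exact h
  · intro j φ hφ hφs ε hε
    filter_upwards [h1 j φ hφ hφs ε hε] with i hi γ
    rw [(s i).err_coprime j (hp i j), avg_sub, avg_const]
    exact hi γ

end Pool.Agent.Results.MP_9177b7_ag.IndependentTori
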